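import Mathlib
import Pool.Agent.MP_8ca5b0_lc.Defs

-- part MP_8ca5b0_lc.Strs
section

/-! Binary strings of a fixed length and averages over them. -/

namespace Pool.Agent.MP_8ca5b0_lc

/-- All binary strings of length `n`. -/
def strs : ℕ → List (List Bool)
  | 0 => [[]]
  | n + 1 => (strs n).map (List.cons false) ++ (strs n).map (List.cons true)

theorem length_strs (n : ℕ) : (strs n).length = 2 ^ n := by
  induction n with
  | zero => rfl
  | succ n ih => simp [strs, ih, pow_succ, mul_two]

theorem mem_strs {n : ℕ} {x : List Bool} : x ∈ strs n ↔ x.length = n := by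
  induction n generalizing x with
  | zero => simp [strs]
  | succ n ih =>
    cases x with
    | nil => simp [strs]
    | cons b y => cases b <;> simp [strs, ih]

theorem nodup_strs (n : ℕ) : (strs n).Nodup := by
  induction n with
  | zero => simp [strs]
  | succ n ih =>
    rw [strs, List.nodup_append]
    refine ⟨ih.map List.cons_injective, ih.map List.cons_injective, ?_⟩
    intro a ha b hb hab
    obtain ⟨y, -, rfl⟩ := List.mem_map.1 ha
    obtain ⟨z, -, rfl⟩ := List.mem_map.1 hb
    simp at hab

theorem primrec_strs : Primrec strs := by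
  have h : Primrec fun n : ℕ => (Nat.rec [[]]
      (fun _ L => L.map (List.cons false) ++ L.map (List.cons true)) n : List (List Bool)) := by
    refine Primrec.nat_rec₁ _ ?_
    refine Primrec₂.mk (Primrec.list_append.comp ?_ ?_)
    · exact Primrec.list_map Primrec.snd
        (Primrec₂.mk (Primrec.list_cons.comp (Primrec.const false) Primrec.snd))
    · exact Primrec.list_map Primrec.snd
        (Primrec₂.mk (Primrec.list_cons.comp (Primrec.const true) Primrec.snd))
  refine h.of_eq fun n => ?_
  induction n with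
  | zero => rfl
  | succ n ih => simp only [strs, ← ih]

/-- The average of `h` over the strings of length `m`. -/
noncomputable def Ex (m : ℕ) (h : List Bool → ℝ) : ℝ := ((strs m).map h).sum / 2 ^ m

theorem sum_strs_take (N r : ℕ) (h : List Bool → ℝ) :
    ((strs (r + N)).map fun x => h (x.take N)).sum = 2 ^ r * ((strs N).map h).sum := by
  induction N generalizing h with
  | zero => simp [strs, length_strs]
  | succ N ih =>
    rw [← add_assoc]
    simp only [strs, List.map_append, List.map_map, List.sum_append]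
    have e1 := ih (h ∘ List.cons false)
    have e2 := ih (h ∘ List.cons true)
    simp only [Function.comp_def, List.take_succ_cons] at e1 e2 ⊢
    rw [e1, e2, mul_add]

theorem Ex_eq_of_take {N m : ℕ} (hm : N ≤ m) {h : List Bool → ℝ}
    (hh : ∀ x, h (x.take N) = h x) : Ex m h = Ex N h := by
  obtain ⟨r, rfl⟩ := Nat.exists_eq_add_of_le' hm
  have e := sum_strs_take N r h
  simp only [hh] at e
  unfold Ex
  rw [e, pow_add]
  field_simp

theorem Ex_mono {m : ℕ} {g h : List Bool → ℝ} (hgh : ∀ x, x.length = m → g x ≤ h x) :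
    Ex m g ≤ Ex m h := by
  unfold Ex
  gcongr
  exact List.sum_le_sum fun x hx => hgh x (mem_strs.1 hx)

theorem Ex_add (m : ℕ) (g h : List Bool → ℝ) :
    Ex m (fun x => g x + h x) = Ex m g + Ex m h := by
  unfold Ex
  rw [List.sum_map_add, add_div]

theorem Ex_mul (m : ℕ) (c : ℝ) (h : List Bool → ℝ) :
    Ex m (fun x => c * h x) = c * Ex m h := by
  unfold Ex
  rw [List.sum_map_mul_left, mul_div_assoc]

theorem Ex_nonneg {m : ℕ} {h : List Bool → ℝ} (hh : ∀ x, 0 ≤ h x) : 0 ≤ Ex m h := by
  unfold Ex
  refine div_nonneg (List.sum_nonneg ?_) (by positivity)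
  intro y hy
  obtain ⟨x, -, rfl⟩ := List.mem_map.1 hy
  exact hh x

end Pool.Agent.MP_8ca5b0_lc

end

-- part MP_8ca5b0_lc.Potential
section

/-! A maximal-inequality potential argument: running maxima of suitably chosen averages stay
bounded in mean square. -/

namespace Pool.Agent.MP_8ca5b0_lc

/-- The denominator attached to a history. -/
def den (H : List (List ℕ)) : ℕ := H.foldr (fun L D => 2 * L.length * D) 1

/-- Numerator and denominator of the running maximum attached to a history. -/
def st (φ : List Bool → ℕ) (x : List Bool) (H : List (List ℕ)) : ℕ × ℕ :=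
  H.foldr (fun L p => (max (2 * L.length * p.1)
    ((L.map fun n => max (2 * p.2 * φ (x.take n)) p.1).sum), 2 * L.length * p.2)) (0, 1)

theorem st_snd (φ : List Bool → ℕ) (x : List Bool) (H : List (List ℕ)) :
    (st φ x H).2 = den H := by
  induction H with
  | nil => rfl
  | cons L H ih => simp only [st, den, List.foldr_cons] at ih ⊢; rw [ih]

theorem st_cons_fst (φ : List Bool → ℕ) (x : List Bool) (L : List ℕ) (H : List (List ℕ)) :
    (st φ x (L :: H)).1 = max (2 * L.length * (st φ x H).1)
      ((L.map fun n => max (2 * den H * φ (x.take n)) (st φ x H).1).sum) := by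
  rw [← st_snd φ x H]; rfl

theorem den_cons (L : List ℕ) (H : List (List ℕ)) : den (L :: H) = 2 * L.length * den H := rfl

/-- All lists of the history are nonempty. -/
def NE (H : List (List ℕ)) : Prop := ∀ L ∈ H, L ≠ []

theorem den_pos {H : List (List ℕ)} (h : NE H) : 0 < den H := by
  induction H with
  | nil => simp [den]
  | cons L H ih =>
    rw [den_cons]
    have h1 : 0 < L.length := List.length_pos_iff.2 (h L (by simp))
    have h2 := ih fun L' hL' => h L' (by simp [hL'])
    positivity

/-- All indices of the history are at most `N`. -/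
def Bd (H : List (List ℕ)) (N : ℕ) : Prop := ∀ L ∈ H, ∀ n ∈ L, n ≤ N

theorem Bd.mono {H : List (List ℕ)} {N m : ℕ} (h : Bd H N) (hm : N ≤ m) : Bd H m :=
  fun L hL n hn => (h L hL n hn).trans hm

theorem exists_Bd (H : List (List ℕ)) : ∃ N, Bd H N :=
  ⟨(H.map List.sum).sum, fun L hL n hn =>
    (List.le_sum_of_mem hn).trans (List.le_sum_of_mem (List.mem_map_of_mem hL))⟩

theorem st_congr {φ ψ : List Bool → ℕ} {x y : List Bool} {H : List (List ℕ)}
    (h : ∀ L ∈ H, ∀ n ∈ L, φ (x.take n) = ψ (y.take n)) : st φ x H = st ψ y H := by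
  induction H with
  | nil => rfl
  | cons L H ih =>
    have ih' := ih fun L' hL' => h L' (by simp [hL'])
    refine Prod.ext ?_ (by rw [st_snd, st_snd])
    rw [st_cons_fst, st_cons_fst, ih']
    congr 2
    exact List.map_congr_left fun n hn => by rw [h L (by simp) n hn]

/-- The running maximum as a real number. -/
noncomputable def G (φ : List Bool → ℕ) (H : List (List ℕ)) (x : List Bool) : ℝ :=
  ((st φ x H).1 : ℝ) / den H

theorem G_nonneg (φ : List Bool → ℕ) (H : List (List ℕ)) (x : List Bool) : 0 ≤ G φ H x := by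
  unfold G; positivity

theorem G_nil (φ : List Bool → ℕ) (x : List Bool) : G φ [] x = 0 := by simp [G, st]

theorem G_take (φ : List Bool → ℕ) {H : List (List ℕ)} {N : ℕ} (h : Bd H N) (x : List Bool) :
    G φ H (x.take N) = G φ H x := by
  unfold G
  rw [st_congr (φ := φ) (ψ := φ) (x := x.take N) (y := x)]
  intro L hL n hn
  rw [List.take_take, min_eq_left (h L hL n hn)]

/-- The average over a list of indices. -/
noncomputable def avg (L : List ℕ) (u : ℕ → ℝ) : ℝ := (L.map u).sum / L.length

theorem G_cons (φ : List Bool → ℕ) {L : List ℕ} {H : List (List ℕ)} (hL : L ≠ []) (hH : NE H)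
    (x : List Bool) :
    G φ (L :: H) x =
      max (G φ H x) (avg L fun n => max (φ (x.take n) : ℝ) (G φ H x / 2)) := by
  have h1 : (0 : ℝ) < L.length := by exact_mod_cast List.length_pos_iff.2 hL
  have h2 : (0 : ℝ) < den H := by exact_mod_cast den_pos hH
  unfold G avg
  rw [st_cons_fst, den_cons]
  push_cast
  rw [← max_div_div_right (by positivity)]
  congr 1
  · field_simp
  · rw [div_eq_div_iff (by positivity) h1.ne']
    have : ((L.map fun n => max (φ (x.take n) : ℝ) (((st φ x H).1 : ℝ) / den H / 2)).sum) *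
        (2 * den H) = (List.map Nat.cast (L.map fun n =>
          max (2 * den H * φ (x.take n)) (st φ x H).1)).sum := by
      rw [← List.sum_map_mul_right, List.map_map]
      congr 1
      refine List.map_congr_left fun n _ => ?_
      simp only [Function.comp_apply]
      push_cast
      rw [max_mul_of_nonneg _ _ (by positivity)]
      congr 1
      · ring
      · field_simp
    rw [← this]
    ring

/-- The potential. -/
noncomputable def pot (f a : ℝ) : ℝ := (max (f - a / 2) 0) ^ 2 + a ^ 2 / 4

theorem pot_mono {f f' a : ℝ} (h : f ≤ f') : pot f a ≤ pot f' a := by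
  unfold pot
  have : max (f - a / 2) 0 ≤ max (f' - a / 2) 0 := max_le_max (by linarith) le_rfl
  have h0 : 0 ≤ max (f - a / 2) 0 := le_max_right _ _
  nlinarith

theorem pot_step (f a g : ℝ) :
    pot f (max a g) ≤ pot f a + max (g - a) 0 * (g - max f (a / 2)) := by
  unfold pot
  rcases le_total g a with h | h
  · rw [max_eq_left h, max_eq_right (by linarith : g - a ≤ 0)]; simp
  · rw [max_eq_right h, max_eq_left (by linarith : 0 ≤ g - a)]
    rcases le_total f (a / 2) with h1 | h1
    · rw [max_eq_right h1, max_eq_right (by linarith : f - g / 2 ≤ 0),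
        max_eq_right (by linarith : f - a / 2 ≤ 0)]
      nlinarith
    · rw [max_eq_left h1, max_eq_left (by linarith : 0 ≤ f - a / 2)]
      rcases le_total (f - g / 2) 0 with h2 | h2
      · rw [max_eq_right h2]; nlinarith [sq_nonneg (f - g / 2), sq_nonneg (g - a)]
      · rw [max_eq_left h2]; nlinarith [sq_nonneg (g - a)]

theorem sq_max_le_pot (f a : ℝ) : (max f (a / 2)) ^ 2 ≤ 2 * pot f a := by
  unfold pot
  rcases le_total f (a / 2) with h1 | h1
  · rw [max_eq_right h1, max_eq_right (by linarith : f - a / 2 ≤ 0)]; nlinarith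
  · rw [max_eq_left h1, max_eq_left (by linarith : 0 ≤ f - a / 2)]
    nlinarith [sq_nonneg (f - a)]

theorem pos_sq_add_le (u h : ℝ) :
    (max (u + h) 0) ^ 2 ≤ (max u 0) ^ 2 + 2 * max u 0 * h + h ^ 2 := by
  rcases le_total u 0 with h1 | h1 <;> rcases le_total (u + h) 0 with h2 | h2
  · rw [max_eq_right h1, max_eq_right h2]; nlinarith
  · rw [max_eq_right h1, max_eq_left h2]; nlinarith
  · rw [max_eq_left h1, max_eq_right h2]; nlinarith [sq_nonneg (u + h)]
  · rw [max_eq_left h1, max_eq_left h2]; nlinarith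

/-- The mean potential of the `n`-th function against the running maximum. -/
noncomputable def W (φ : List Bool → ℕ) (H : List (List ℕ)) (n m : ℕ) : ℝ :=
  Ex m fun x => pot (φ (x.take n)) (G φ H x)

theorem W_eq (φ : List Bool → ℕ) {H : List (List ℕ)} {n N m : ℕ} (hH : Bd H N) (hn : n ≤ N)
    (hm : N ≤ m) : W φ H n m = W φ H n N :=
  Ex_eq_of_take hm fun x => by rw [G_take φ hH, List.take_take, min_eq_left hn]

theorem avg_append_replicate (L : List ℕ) (hL : L ≠ []) (r n : ℕ) (u : ℕ → ℝ) :
    avg ((List.replicate r L).flatten ++ List.replicate L.length n) u =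
      avg L u + 1 / (r + 1) * (u n - avg L u) := by
  have h1 : (0 : ℝ) < L.length := by exact_mod_cast List.length_pos_iff.2 hL
  have h2 : ∀ r : ℕ, (((List.replicate r L).flatten).map u).sum = r * (L.map u).sum := by
    intro r
    induction r with
    | zero => simp
    | succ r ih =>
      rw [List.replicate_succ, List.flatten_cons, List.map_append, List.sum_append, ih]
      push_cast; ring
  unfold avg
  rw [List.map_append, List.sum_append, h2]
  simp only [List.map_replicate, List.sum_replicate, nsmul_eq_mul, List.length_append,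
    List.length_flatten, List.length_replicate, smul_eq_mul]
  push_cast
  field_simp
  ring

/-- The step lemma. -/
theorem exists_step (φ : List Bool → ℕ) {H : List (List ℕ)} (hH : NE H) (j : ℕ) {B η : ℝ}
    (hη : 0 < η) (hB : ∀ n m, j ≤ n → n ≤ m → Bd H m → W φ H n m ≤ B) :
    ∃ L : List ℕ, L ≠ [] ∧ (∀ n ∈ L, j ≤ n) ∧
      ∀ n m, j ≤ n → n ≤ m → Bd (L :: H) m → W φ (L :: H) n m ≤ B + η := by
  obtain ⟨N₀, hN₀⟩ := exists_Bd H
  let ft : ℕ → List Bool → ℝ := fun n x => max (φ (x.take n) : ℝ) (G φ H x / 2)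
  let g : List ℕ → List Bool → ℝ := fun L x => avg L fun n => ft n x
  have ft_take : ∀ n N, n ≤ N → Bd H N → ∀ x, ft n (x.take N) = ft n x := by
    intro n N hn hN x
    simp only [ft]
    rw [G_take φ hN, List.take_take, min_eq_left hn]
  have g_take : ∀ L N, (∀ n ∈ L, n ≤ N) → Bd H N → ∀ x, g L (x.take N) = g L x := by
    intro L N hL hN x
    simp only [g, avg]
    congr 2
    exact List.map_congr_left fun n hn => ft_take n N (hL n hn) hN x
  have ft_sq : ∀ n m, j ≤ n → n ≤ m → Bd H m → Ex m (fun x => ft n x ^ 2) ≤ 2 * B := by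
    intro n m hj hn hm
    calc _ ≤ Ex m (fun x => 2 * pot (φ (x.take n)) (G φ H x)) :=
          Ex_mono fun x _ => sq_max_le_pot _ _
      _ = 2 * W φ H n m := Ex_mul _ _ _
      _ ≤ 2 * B := by linarith [hB n m hj hn hm]
  have hB0 : 0 ≤ B := by
    have h1 := ft_sq j (max j N₀) le_rfl (le_max_left _ _) (hN₀.mono (le_max_right _ _))
    have h2 : 0 ≤ Ex (max j N₀) (fun x => ft j x ^ 2) := Ex_nonneg fun x => sq_nonneg _
    linarith
  let Adm : List ℕ → Prop := fun L => L ≠ [] ∧ (∀ n ∈ L, j ≤ n) ∧
    ∀ m, (∀ n ∈ L, n ≤ m) → Bd H m → Ex m (fun x => g L x ^ 2) ≤ 2 * B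
  let Ψ : List ℕ → ℝ := fun L => Ex (N₀ + L.sum) fun x => (max (g L x - G φ H x) 0) ^ 2
  have Ψ_eq : ∀ L m, (∀ n ∈ L, n ≤ m) → N₀ ≤ m →
      Ψ L = Ex m fun x => (max (g L x - G φ H x) 0) ^ 2 := by
    intro L m hL hm
    have e : ∀ N, (∀ n ∈ L, n ≤ N) → N₀ ≤ N → ∀ M, N ≤ M →
        (Ex M fun x => (max (g L x - G φ H x) 0) ^ 2) =
          Ex N fun x => (max (g L x - G φ H x) 0) ^ 2 := fun N h1 h2 M hM =>
      Ex_eq_of_take hM fun x => by
        rw [g_take L N h1 (hN₀.mono h2), G_take φ (hN₀.mono h2)]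
    have h3 : ∀ n ∈ L, n ≤ N₀ + L.sum := fun n hn =>
      (List.le_sum_of_mem hn).trans (Nat.le_add_left _ _)
    simp only [Ψ]
    rw [← e _ h3 (Nat.le_add_right _ _) (max m (N₀ + L.sum)) (le_max_right _ _),
      e m hL hm _ (le_max_left _ _)]
  have hne : Adm [j] := by
    refine ⟨by simp, by simp, fun m hm hHm => ?_⟩
    have : (fun x => g [j] x ^ 2) = fun x => ft j x ^ 2 := by
      funext x; simp [g, avg]
    rw [this]
    exact ft_sq j m le_rfl (hm j (by simp)) hHm
  obtain ⟨r, hr⟩ := exists_nat_ge (4 * B / η)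
  have hr1 : (0 : ℝ) < r + 1 := by positivity
  set τ : ℝ := 1 / (r + 1) with hτ
  have hτ0 : 0 < τ := by positivity
  have hτ1 : τ ≤ 1 := by
    rw [hτ, div_le_one hr1]; linarith [(Nat.cast_nonneg r : (0 : ℝ) ≤ r)]
  have hτB : τ * (4 * B) ≤ η := by
    rw [div_le_iff₀ hη] at hr
    rw [hτ, div_mul_eq_mul_div, div_le_iff₀ hr1]
    nlinarith
  have hbdd : BddBelow (Ψ '' {L | Adm L}) :=
    ⟨0, by rintro _ ⟨L, -, rfl⟩; exact Ex_nonneg fun x => sq_nonneg _⟩
  obtain ⟨_, ⟨L, hL, rfl⟩, hlt⟩ := exists_lt_of_csInf_lt (s := Ψ '' {L | Adm L})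
    ⟨_, [j], hne, rfl⟩ (show sInf (Ψ '' {L | Adm L}) < sInf (Ψ '' {L | Adm L}) + τ * η by
      have := mul_pos hτ0 hη; linarith)
  refine ⟨L, hL.1, hL.2.1, ?_⟩
  have main : ∀ n m, j ≤ n → n ≤ m → N₀ ≤ m → Bd (L :: H) m → W φ (L :: H) n m ≤ B + η := by
    intro n m hj hn hN hm
    have hLm : ∀ k ∈ L, k ≤ m := hm L (by simp)
    have hHm : Bd H m := hN₀.mono hN
    let L' := (List.replicate r L).flatten ++ List.replicate L.length n
    have hg' : ∀ x, g L' x = g L x + τ * (ft n x - g L x) := fun x =>
      avg_append_replicate L hL.1 r n _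
    have hmem : ∀ k ∈ L', k ∈ L ∨ k = n := by
      intro k hk
      rcases List.mem_append.1 hk with h | h
      · obtain ⟨l, hl, hk⟩ := List.mem_flatten.1 h
        rw [List.eq_of_mem_replicate hl] at hk
        exact Or.inl hk
      · exact Or.inr (List.eq_of_mem_replicate h)
    have hnL' : n ∈ L' := List.mem_append.2 (Or.inr (List.mem_replicate.2
      ⟨(List.length_pos_iff.2 hL.1).ne', rfl⟩))
    have hsub : ∀ k ∈ L, ∀ M, (∀ k ∈ L', k ≤ M) → r ≠ 0 → k ≤ M := by
      intro k hk M hM hr0
      exact hM k (List.mem_append.2 (Or.inl (List.mem_flatten.2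
        ⟨L, List.mem_replicate.2 ⟨hr0, rfl⟩, hk⟩)))
    have hadm : Adm L' := by
      refine ⟨List.ne_nil_of_mem hnL', fun k hk => ?_, fun M hM hHM => ?_⟩
      · rcases hmem k hk with h | rfl
        · exact hL.2.1 k h
        · exact hj
      · have h1 := ft_sq n M hj (hM n hnL') hHM
        rcases Nat.eq_zero_or_pos r with hr0 | hr0
        · have : (fun x => g L' x ^ 2) = fun x => ft n x ^ 2 := by
            funext x
            rw [hg', hτ, hr0]; simp
          rw [this]; exact h1
        · have h2 := hL.2.2 M (fun k hk => hsub k hk M hM hr0.ne') hHM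
          calc _ ≤ Ex M (fun x => (1 - τ) * g L x ^ 2 + τ * ft n x ^ 2) := by
                refine Ex_mono fun x _ => ?_
                rw [hg']
                have := mul_nonneg (mul_nonneg hτ0.le (sub_nonneg.2 hτ1))
                  (sq_nonneg (ft n x - g L x))
                nlinarith
            _ = (1 - τ) * Ex M (fun x => g L x ^ 2) + τ * Ex M (fun x => ft n x ^ 2) := by
                rw [Ex_add, Ex_mul, Ex_mul]
            _ ≤ 2 * B := by nlinarith
    have hL'm : ∀ k ∈ L', k ≤ m := fun k hk => by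
      rcases hmem k hk with h | rfl
      · exact hLm k h
      · exact hn
    have h1 : sInf (Ψ '' {L | Adm L}) ≤ Ψ L' := csInf_le hbdd ⟨L', hadm, rfl⟩
    rw [Ψ_eq L' m hL'm hN] at h1
    rw [Ψ_eq L m hLm hN] at hlt
    have hft0 : ∀ x, 0 ≤ ft n x := fun x => le_max_of_le_left (Nat.cast_nonneg _)
    have hg0 : ∀ x, 0 ≤ g L x := fun x => by
      refine div_nonneg (List.sum_nonneg ?_) (Nat.cast_nonneg _)
      intro y hy
      obtain ⟨k, -, rfl⟩ := List.mem_map.1 hy
      exact le_max_of_le_left (Nat.cast_nonneg _)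
    have h2 : (Ex m fun x => (max (g L' x - G φ H x) 0) ^ 2) ≤
        (Ex m fun x => (max (g L x - G φ H x) 0) ^ 2) +
          (-2 * τ) * (Ex m fun x => max (g L x - G φ H x) 0 * (g L x - ft n x)) +
          (τ ^ 2 * (Ex m fun x => g L x ^ 2) + τ ^ 2 * (Ex m fun x => ft n x ^ 2)) := by
      rw [← Ex_mul, ← Ex_mul, ← Ex_mul, ← Ex_add, ← Ex_add, ← Ex_add]
      refine Ex_mono fun x _ => ?_
      have e := pos_sq_add_le (g L x - G φ H x) (τ * (ft n x - g L x))
      have e2 : g L' x - G φ H x = g L x - G φ H x + τ * (ft n x - g L x) := by rw [hg']; ring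
      rw [e2]
      have e3 := mul_nonneg (sq_nonneg τ) (mul_nonneg (hft0 x) (hg0 x))
      nlinarith
    have h3 := ft_sq n m hj hn hHm
    have h4 := hL.2.2 m hLm hHm
    have h5 : (Ex m fun x => max (g L x - G φ H x) 0 * (g L x - ft n x)) ≤ η := by
      have h6 : 2 * τ * (Ex m fun x => max (g L x - G φ H x) 0 * (g L x - ft n x)) ≤
          2 * τ * η := by
        have h7 := mul_le_mul_of_nonneg_left hτB hτ0.le
        have h8 := mul_le_mul_of_nonneg_left h3 (sq_nonneg τ)
        have h9 := mul_le_mul_of_nonneg_left h4 (sq_nonneg τ)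
        nlinarith
      exact le_of_mul_le_mul_left h6 (by positivity)
    calc W φ (L :: H) n m
        ≤ Ex m (fun x => pot (φ (x.take n)) (G φ H x) +
            max (g L x - G φ H x) 0 * (g L x - ft n x)) := by
          refine Ex_mono fun x _ => ?_
          rw [G_cons φ hL.1 hH]
          exact pot_step _ _ _
      _ = W φ H n m + Ex m (fun x => max (g L x - G φ H x) 0 * (g L x - ft n x)) := Ex_add _ _ _
      _ ≤ B + η := add_le_add (hB n m hj hn hHm) h5
  intro n m hj hn hm
  rw [← W_eq φ hm hn (le_max_left m N₀)]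
  exact main n _ hj (hn.trans (le_max_left _ _)) (le_max_right _ _) (hm.mono (le_max_left _ _))

end Pool.Agent.MP_8ca5b0_lc

end

-- part MP_8ca5b0_lc.Path
section

/-! The limit-computable construction of the sequence of averages. -/

namespace Pool.Agent.MP_8ca5b0_lc

open Filter

/-- The potential, cleared of denominators and summed over strings of length `m`. -/
def potN (φ : List Bool → ℕ) (H : List (List ℕ)) (n m : ℕ) : ℕ :=
  ((strs m).map fun x => (2 * den H * φ (x.take n) - (st φ x H).1) ^ 2 + (st φ x H).1 ^ 2).sum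

theorem potN_eq (φ : List Bool → ℕ) {H : List (List ℕ)} (hH : NE H) (n m : ℕ) :
    (potN φ H n m : ℝ) = 4 * den H ^ 2 * 2 ^ m * W φ H n m := by
  have h2 : (0 : ℝ) < den H := by exact_mod_cast den_pos hH
  unfold potN W Ex
  rw [Nat.cast_list_sum, List.map_map]
  have : ∀ x : List Bool, (((2 * den H * φ (x.take n) - (st φ x H).1) ^ 2 +
      (st φ x H).1 ^ 2 : ℕ) : ℝ) = 4 * den H ^ 2 * pot (φ (x.take n)) (G φ H x) := by
    intro x
    unfold pot G
    have e : ((2 * den H * φ (x.take n) - (st φ x H).1 : ℕ) : ℝ) =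
        2 * den H * max ((φ (x.take n) : ℝ) - (st φ x H).1 / den H / 2) 0 := by
      rw [mul_max_of_nonneg _ _ (by positivity)]
      have e1 : 2 * (den H : ℝ) * ((φ (x.take n) : ℝ) - (st φ x H).1 / den H / 2) =
          ((2 * den H * φ (x.take n) : ℕ) : ℝ) - ((st φ x H).1 : ℕ) := by
        push_cast; field_simp
      rw [e1, mul_zero]
      rcases le_total ((st φ x H).1) (2 * den H * φ (x.take n)) with h | h
      · rw [Nat.cast_sub h, max_eq_left]
        exact sub_nonneg.2 (by exact_mod_cast h)
      · rw [Nat.sub_eq_zero_of_le h, max_eq_right, Nat.cast_zero]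
        exact sub_nonpos.2 (by exact_mod_cast h)
    rw [Nat.cast_add, Nat.cast_pow, e]
    push_cast
    field_simp
    ring
  simp only [Function.comp_def, this]
  rw [List.sum_map_mul_left]
  field_simp

/-- The thresholds. -/
noncomputable def thr (A j : ℕ) : ℝ := A + 1 - 1 / (j + 1)

theorem potN_le_iff (φ : List Bool → ℕ) {H : List (List ℕ)} (hH : NE H) (n m A j : ℕ) :
    (j + 1) * potN φ H n m + 4 * den H ^ 2 * 2 ^ m ≤ 4 * den H ^ 2 * 2 ^ m * ((A + 1) * (j + 1)) ↔
      W φ H n m ≤ thr A j := by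
  have h2 : (0 : ℝ) < den H := by exact_mod_cast den_pos hH
  have h3 : (0 : ℝ) < 4 * den H ^ 2 * 2 ^ m := by positivity
  have h4 : (0 : ℝ) < j + 1 := by positivity
  rw [← Nat.cast_le (α := ℝ)]
  push_cast
  rw [potN_eq φ hH]
  set K : ℝ := 4 * den H ^ 2 * 2 ^ m
  have e : thr A j = ((A + 1) * (j + 1) - 1) / (j + 1) := by unfold thr; field_simp
  rw [e, le_div_iff₀ h4]
  constructor
  · intro h
    have : K * (W φ H n m * (j + 1)) ≤ K * ((A + 1) * (j + 1) - 1) := by nlinarith
    exact le_of_mul_le_mul_left this h3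
  · intro h
    have := mul_le_mul_of_nonneg_left h h3.le
    nlinarith

variable (F : ℕ → List Bool → ℕ) (A : ℕ)

/-- The test passed by a candidate `L` extending the history `H` at stage `m`. -/
def ok (m : ℕ) (H : List (List ℕ)) (L : List ℕ) : Prop :=
  0 < L.length ∧ (∀ n ∈ L, H.length + 1 ≤ n ∧ n ≤ m) ∧
    ∀ n < m + 1, H.length + 1 ≤ n →
      (H.length + 1 + 1) * potN (F m) (L :: H) n m + 4 * den (L :: H) ^ 2 * 2 ^ m ≤
        4 * den (L :: H) ^ 2 * 2 ^ m * ((A + 1) * (H.length + 1 + 1))

instance (m : ℕ) (H : List (List ℕ)) (L : List ℕ) : Decidable (ok F A m H L) := by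
  unfold ok; infer_instance

/-- The first candidate passing the test at stage `m`. -/
def cand (m : ℕ) (H : List (List ℕ)) : ℕ :=
  (List.range (m + 1)).findIdx fun c => decide (ok F A m H (Denumerable.ofNat (List ℕ) c))

/-- One step of the construction at stage `m`. -/
def next (m : ℕ) (H : List (List ℕ)) : List (List ℕ) :=
  if cand F A m H ≤ m then Denumerable.ofNat (List ℕ) (cand F A m H) :: H else H

/-- The construction at stage `m`. -/
def path (m : ℕ) (i : ℕ) : List (List ℕ) := Nat.rec [] (fun _ H => next F A m H) i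

theorem path_succ (m i : ℕ) : path F A m (i + 1) = next F A m (path F A m i) := rfl

theorem ok_cand {m : ℕ} {H : List (List ℕ)} (h : cand F A m H ≤ m) :
    ok F A m H (Denumerable.ofNat (List ℕ) (cand F A m H)) := by
  have h1 : cand F A m H < (List.range (m + 1)).length := by simp; omega
  have := List.findIdx_getElem (w := h1)
  simpa [cand] using this

theorem cand_eq {m c : ℕ} {H : List (List ℕ)} (hc : c ≤ m)
    (h1 : ok F A m H (Denumerable.ofNat (List ℕ) c))
    (h2 : ∀ c' < c, ¬ ok F A m H (Denumerable.ofNat (List ℕ) c')) : cand F A m H = c := by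
  unfold cand
  rw [List.findIdx_eq (by simp; omega)]
  refine ⟨by simpa using h1, fun j hj => ?_⟩
  simpa using h2 j hj

theorem next_cases (m : ℕ) (H : List (List ℕ)) :
    next F A m H = H ∨ ∃ L, ok F A m H L ∧ next F A m H = L :: H := by
  unfold next
  split_ifs with h
  · exact Or.inr ⟨_, ok_cand F A h, rfl⟩
  · exact Or.inl rfl

theorem NE_cons {L : List ℕ} {H : List (List ℕ)} (hL : L ≠ []) (hH : NE H) : NE (L :: H) := by
  intro L' hL'
  rcases List.mem_cons.1 hL' with rfl | h
  · exact hL
  · exact hH L' h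

theorem NE_path (m i : ℕ) : NE (path F A m i) := by
  induction i with
  | zero => intro L hL; simp [path] at hL
  | succ i ih =>
    rw [path_succ]
    rcases next_cases F A m (path F A m i) with h | ⟨L, hL, h⟩
    · rwa [h]
    · rw [h]; exact NE_cons (List.length_pos_iff.1 hL.1) ih

theorem G_path_mono (φ : List Bool → ℕ) (m : ℕ) (x : List Bool) :
    Monotone fun i => G φ (path F A m i) x := by
  refine monotone_nat_of_le_succ fun i => ?_
  rw [path_succ]
  rcases next_cases F A m (path F A m i) with h | ⟨L, hL, h⟩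
  · rw [h]
  · rw [h, G_cons φ (List.length_pos_iff.1 hL.1) (NE_path F A m i)]
    exact le_max_left _ _

theorem Ex_G_path_le (m i : ℕ) :
    Ex m (fun x => G (F m) (path F A m i) x ^ 2) ≤ 4 * (A + 1) := by
  induction i with
  | zero =>
    have : (fun x => G (F m) (path F A m 0) x ^ 2) = fun x => 0 * 0 := by
      funext x; simp [path, G_nil]
    rw [this, Ex_mul, zero_mul]; positivity
  | succ i ih =>
    rw [path_succ]
    rcases next_cases F A m (path F A m i) with h | ⟨L, hL, h⟩
    · rwa [h]
    · rw [h]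
      have hL0 := List.length_pos_iff.1 hL.1
      obtain ⟨n, hn⟩ := List.exists_mem_of_ne_nil L hL0
      have h1 := hL.2.2 m (by omega) ((hL.2.1 n hn).1.trans (hL.2.1 n hn).2)
      rw [potN_le_iff _ (NE_cons hL0 (NE_path F A m i))] at h1
      calc _ ≤ Ex m (fun x => 4 * pot (F m (x.take m)) (G (F m) (L :: path F A m i) x)) := by
            refine Ex_mono fun x _ => ?_
            unfold pot
            nlinarith [sq_nonneg (max ((F m (x.take m) : ℝ) - G (F m) (L :: path F A m i) x / 2) 0)]
        _ = 4 * W (F m) (L :: path F A m i) m m := Ex_mul _ _ _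
        _ ≤ 4 * (A + 1) := by
            unfold thr at h1
            have : (0 : ℝ) ≤ 1 / (((path F A m i).length + 1 : ℕ) + 1) := by positivity
            linarith

variable {F A} {f : List Bool → ℕ}

/-- The limit form of the test. -/
def Valid (f : List Bool → ℕ) (A : ℕ) (H : List (List ℕ)) : Prop :=
  NE H ∧ (∀ n ∈ H.headI, H.length ≤ n) ∧
    ∀ n m, H.length ≤ n → n ≤ m → Bd H m → W f H n m ≤ thr A H.length

theorem eventually_stable (hF : ∀ x, ∀ᶠ s in atTop, F s x = f x) (N : ℕ) :
    ∀ᶠ s in atTop, ∀ x : List Bool, x.length ≤ N → F s x = f x := by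
  have h : {x : List Bool | x.length ≤ N}.Finite := List.finite_length_le Bool N
  exact (eventually_all_finite h).2 fun x _ => hF x

theorem G_eventually (hF : ∀ x, ∀ᶠ s in atTop, F s x = f x) (H : List (List ℕ)) :
    ∀ᶠ s in atTop, ∀ x, G (F s) H x = G f H x := by
  obtain ⟨N, hN⟩ := exists_Bd H
  filter_upwards [eventually_stable hF N] with s hs x
  unfold G
  rw [st_congr (φ := F s) (ψ := f) (x := x) (y := x)]
  intro L hL n hn
  exact hs _ ((List.length_take_le _ _).trans (hN L hL n hn))

theorem ok_of_valid (hF : ∀ x, ∀ᶠ s in atTop, F s x = f x) (hle : ∀ s x, F s x ≤ f x)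
    {L : List ℕ} {H : List (List ℕ)} (h : Valid f A (L :: H)) :
    ∀ᶠ m in atTop, ok F A m H L := by
  obtain ⟨N, hN⟩ := exists_Bd (L :: H)
  filter_upwards [G_eventually hF (L :: H), eventually_ge_atTop N] with m hm hNm
  refine ⟨List.length_pos_iff.2 (h.1 L (by simp)), fun n hn =>
    ⟨h.2.1 n hn, (hN L (by simp) n hn).trans hNm⟩, fun n hn hj => ?_⟩
  rw [potN_le_iff _ h.1]
  refine le_trans ?_ (h.2.2 n m hj (by omega) (hN.mono hNm))
  refine Ex_mono fun x _ => ?_
  rw [hm]
  exact pot_mono (by exact_mod_cast hle _ _)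

theorem not_ok_of_not_valid (hF : ∀ x, ∀ᶠ s in atTop, F s x = f x)
    {L : List ℕ} {H : List (List ℕ)} (hH : NE H) (h : ¬ Valid f A (L :: H)) :
    ∀ᶠ m in atTop, ¬ ok F A m H L := by
  by_cases h1 : L = []
  · exact Eventually.of_forall fun m hm => by simpa [h1] using hm.1
  by_cases h2 : ∀ n ∈ L, H.length + 1 ≤ n
  swap
  · exact Eventually.of_forall fun m hm => h2 fun n hn => (hm.2.1 n hn).1
  have h3 : ¬ ∀ n m, H.length + 1 ≤ n → n ≤ m → Bd (L :: H) m →
      W f (L :: H) n m ≤ thr A (H.length + 1) := fun h3 => h ⟨NE_cons h1 hH, h2, h3⟩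
  push Not at h3
  obtain ⟨n, N, hj, hn, hN, hW⟩ := h3
  filter_upwards [G_eventually hF (L :: H), eventually_ge_atTop N, eventually_stable hF N]
    with m hm hNm hs hok
  have h4 := hok.2.2 n (by omega) hj
  rw [potN_le_iff _ (NE_cons h1 hH)] at h4
  rw [← W_eq f hN hn hNm] at hW
  have : W (F m) (L :: H) n m = W f (L :: H) n m := by
    unfold W
    congr 1
    funext x
    rw [hm, hs _ ((List.length_take_le _ _).trans hn)]
  linarith

theorem valid_step {H : List (List ℕ)} (h : Valid f A H) : ∃ L, Valid f A (L :: H) := by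
  have hη : (0 : ℝ) < 1 / (H.length + 1) - 1 / (H.length + 1 + 1) := by
    have : (0 : ℝ) < H.length + 1 := by positivity
    rw [sub_pos]
    exact one_div_lt_one_div_of_lt this (by linarith)
  obtain ⟨L, h1, h2, h3⟩ := exists_step f h.1 (H.length + 1) hη
    (fun n m hj hn hm => h.2.2 n m (by omega) hn hm)
  refine ⟨L, NE_cons h1 h.1, h2, fun n m hj hn hm => (h3 n m hj hn hm).trans (le_of_eq ?_)⟩
  unfold thr
  simp only [List.length_cons]
  push_cast
  ring

theorem valid_nil (hA : ∀ n, Ex n (fun x => (f x : ℝ) ^ 2) ≤ A) : Valid f A [] := by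
  refine ⟨fun L hL => by simp at hL, fun n hn => Nat.zero_le _, fun n m _ hn _ => ?_⟩
  rw [W_eq f (N := n) (fun L hL => by simp at hL) le_rfl hn]
  have : thr A ([] : List (List ℕ)).length = A := by simp [thr]
  rw [this]
  refine le_trans (Ex_mono fun x hx => ?_) (hA n)
  rw [G_nil, ← hx, List.take_length]
  simp [pot]

theorem path_converges (hF : ∀ x, ∀ᶠ s in atTop, F s x = f x) (hle : ∀ s x, F s x ≤ f x)
    (hA : ∀ n, Ex n (fun x => (f x : ℝ) ^ 2) ≤ A) (i : ℕ) :
    ∃ H, Valid f A H ∧ H.length = i ∧ ∀ᶠ m in atTop, path F A m i = H := by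
  classical
  induction i with
  | zero => exact ⟨[], valid_nil hA, rfl, Eventually.of_forall fun m => rfl⟩
  | succ i ih =>
    obtain ⟨H, h1, h2, h3⟩ := ih
    have hex : ∃ c, Valid f A (Denumerable.ofNat (List ℕ) c :: H) := by
      obtain ⟨L, hL⟩ := valid_step h1
      exact ⟨Encodable.encode L, by rwa [Denumerable.ofNat_encode]⟩
    refine ⟨_, Nat.find_spec hex, by simp [h2], ?_⟩
    have h4 : ∀ᶠ m in atTop, ∀ c < Nat.find hex,
        ¬ ok F A m H (Denumerable.ofNat (List ℕ) c) :=
      (eventually_all_finite (Set.finite_lt_nat (Nat.find hex))).2 fun c hc =>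
        not_ok_of_not_valid hF h1.1 (Nat.find_min hex hc)
    filter_upwards [h3, h4, ok_of_valid hF hle (Nat.find_spec hex),
      eventually_ge_atTop (Nat.find hex)] with m e1 e2 e3 e4
    rw [path_succ, e1, next, cand_eq F A e4 e3 e2, if_pos e4]

/-- The final running maximum dominates averages over arbitrarily late indices. -/
theorem exists_avg_le (hF : ∀ x, ∀ᶠ s in atTop, F s x = f x) (hle : ∀ s x, F s x ≤ f x)
    (hA : ∀ n, Ex n (fun x => (f x : ℝ) ^ 2) ≤ A) (j : ℕ) :
    ∃ L : List ℕ, L ≠ [] ∧ (∀ n ∈ L, j ≤ n) ∧ ∀ᶠ m in atTop, ∀ x,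
      avg L (fun n => (f (x.take n) : ℝ)) ≤ G (F m) (path F A m m) x := by
  obtain ⟨H, h1, h2, h3⟩ := path_converges hF hle hA (j + 1)
  obtain _ | ⟨L, H⟩ := H
  · simp at h2
  have hL := h1.1 L (by simp)
  refine ⟨L, hL, fun n hn => by have := h1.2.1 n hn; omega, ?_⟩
  filter_upwards [h3, G_eventually hF (L :: H), eventually_ge_atTop (j + 1)] with m e1 e2 e3 x
  refine le_trans ?_ (G_path_mono F A (F m) m x e3)
  simp only
  rw [e1, e2, G_cons f hL (fun L' hL' => h1.1 L' (by simp [hL']))]
  refine le_trans ?_ (le_max_right _ _)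
  unfold avg
  gcongr
  exact List.sum_le_sum fun n _ => le_max_left _ _

end Pool.Agent.MP_8ca5b0_lc

end

-- part MP_8ca5b0_lc.Prim
section

/-! The construction is primitive recursive. -/

namespace Pool.Agent.MP_8ca5b0_lc

open Primrec

variable {α : Type} [Primcodable α]

theorem prim_sum {f : α → List ℕ} (hf : Primrec f) : Primrec fun a => (f a).sum :=
  (list_foldr hf (const 0) (nat_add.comp (fst.comp snd) (snd.comp snd)).to₂).of_eq fun a => by
    induction f a with
    | nil => rfl
    | cons b l ih => simp only [List.foldr_cons, List.sum_cons] at ih ⊢; rw [ih]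

theorem prim_pow {f g : α → ℕ} (hf : Primrec f) (hg : Primrec g) : Primrec fun a => f a ^ g a :=
  (Primrec₂.unpaired'.1 Nat.Primrec.pow).comp hf hg

theorem prim_den {H : α → List (List ℕ)} (hH : Primrec H) : Primrec fun a => den (H a) :=
  list_foldr (h := fun _ (p : List ℕ × ℕ) => 2 * p.1.length * p.2) hH (const 1)
    (nat_mul.comp (nat_mul.comp (const 2) (list_length.comp (fst.comp snd))) (snd.comp snd)).to₂

variable {F : ℕ → List Bool → ℕ}

theorem prim_st (hF : Primrec₂ F) {m : α → ℕ} {x : α → List Bool} {H : α → List (List ℕ)}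
    (hm : Primrec m) (hx : Primrec x) (hH : Primrec H) :
    Primrec fun a => st (F (m a)) (x a) (H a) := by
  refine list_foldr (h := fun a (q : List ℕ × (ℕ × ℕ)) => (max (2 * q.1.length * q.2.1)
    ((q.1.map fun n => max (2 * q.2.2 * F (m a) ((x a).take n)) q.2.1).sum),
      2 * q.1.length * q.2.2)) hH (const (0, 1)) (Primrec₂.mk ?_)
  have hL : Primrec fun p : α × (List ℕ × (ℕ × ℕ)) => p.2.1 := fst.comp snd
  have h1 : Primrec fun p : α × (List ℕ × (ℕ × ℕ)) => p.2.2.1 := fst.comp (snd.comp snd)
  have h2 : Primrec fun p : α × (List ℕ × (ℕ × ℕ)) => p.2.2.2 := snd.comp (snd.comp snd)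
  have h3 : Primrec fun p : α × (List ℕ × (ℕ × ℕ)) => 2 * p.2.1.length :=
    nat_mul.comp (const 2) (list_length.comp hL)
  refine pair (nat_max.comp (nat_mul.comp h3 h1) (prim_sum (list_map hL (Primrec₂.mk ?_))))
    (nat_mul.comp h3 h2)
  exact nat_max.comp (nat_mul.comp (nat_mul.comp (const 2) (h2.comp fst))
    (hF.comp (hm.comp (fst.comp fst)) (list_take.comp snd (hx.comp (fst.comp fst)))))
    (h1.comp fst)

theorem prim_potN (hF : Primrec₂ F) {s n m : α → ℕ} {H : α → List (List ℕ)}
    (hs : Primrec s) (hH : Primrec H) (hn : Primrec n) (hm : Primrec m) :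
    Primrec fun a => potN (F (s a)) (H a) (n a) (m a) := by
  refine prim_sum (list_map (primrec_strs.comp hm) (Primrec₂.mk ?_))
  have h1 : Primrec fun p : α × List Bool => (st (F (s p.1)) p.2 (H p.1)).1 :=
    fst.comp (prim_st hF (hs.comp fst) snd (hH.comp fst))
  exact nat_add.comp (prim_pow (nat_sub.comp (nat_mul.comp
    (nat_mul.comp (const 2) (prim_den (hH.comp fst)))
    (hF.comp (hs.comp fst) (list_take.comp (hn.comp fst) snd))) h1) (const 2))
    (prim_pow h1 (const 2))

theorem prim_imp {p q : α → Prop} (hp : PrimrecPred p) (hq : PrimrecPred q) :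
    PrimrecPred fun a => p a → q a :=
  (hp.not.or hq).of_eq fun a => by tauto

theorem prim_forall_mem {β : Type} [Primcodable β] {L : α → List β} {R : α → β → Prop}
    (hL : Primrec L) (hR : PrimrecPred fun p : β × α => R p.2 p.1) :
    PrimrecPred fun a => ∀ b ∈ L a, R a b :=
  (PrimrecRel.forall_mem_list (R := fun b a => R a b) hR).comp hL Primrec.id

theorem prim_exists_mem {β : Type} [Primcodable β] {L : α → List β} {R : α → β → Prop}
    (hL : Primrec L) (hR : PrimrecPred fun p : β × α => R p.2 p.1) :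
    PrimrecPred fun a => ∃ b ∈ L a, R a b :=
  (PrimrecRel.exists_mem_list (R := fun b a => R a b) hR).comp hL Primrec.id

theorem prim_ok (hF : Primrec₂ F) (A : ℕ) {m : α → ℕ} {H : α → List (List ℕ)} {L : α → List ℕ}
    (hm : Primrec m) (hH : Primrec H) (hL : Primrec L) :
    PrimrecPred fun a => ok F A (m a) (H a) (L a) := by
  have hj : Primrec fun a => (H a).length + 1 := succ.comp (list_length.comp hH)
  have hLH : Primrec fun a => L a :: H a := list_cons.comp hL hH
  have hK : Primrec fun a => 4 * den (L a :: H a) ^ 2 * 2 ^ m a :=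
    nat_mul.comp (nat_mul.comp (const 4) (prim_pow (prim_den hLH) (const 2)))
      (prim_pow (const 2) hm)
  refine PrimrecPred.and (nat_lt.comp (const 0) (list_length.comp hL)) (PrimrecPred.and ?_ ?_)
  · exact prim_forall_mem hL (PrimrecPred.and (nat_le.comp (hj.comp snd) fst)
      (nat_le.comp fst (hm.comp snd)))
  · have := prim_forall_mem (L := fun a => List.range (m a + 1))
      (R := fun a n => (H a).length + 1 ≤ n →
        ((H a).length + 1 + 1) * potN (F (m a)) (L a :: H a) n (m a) +
          4 * den (L a :: H a) ^ 2 * 2 ^ m a ≤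
        4 * den (L a :: H a) ^ 2 * 2 ^ m a * ((A + 1) * ((H a).length + 1 + 1)))
      (list_range.comp (succ.comp hm))
      (prim_imp (nat_le.comp (hj.comp snd) fst) (nat_le.comp
        (nat_add.comp (nat_mul.comp (succ.comp (hj.comp snd))
          (prim_potN hF (hm.comp snd) (hLH.comp snd) fst (hm.comp snd))) (hK.comp snd))
        (nat_mul.comp (hK.comp snd) (nat_mul.comp (const (A + 1)) (succ.comp (hj.comp snd))))))
    exact this.of_eq fun a => by simp only [List.mem_range]

theorem prim_cand (hF : Primrec₂ F) (A : ℕ) {m : α → ℕ} {H : α → List (List ℕ)}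
    (hm : Primrec m) (hH : Primrec H) : Primrec fun a => cand F A (m a) (H a) :=
  list_findIdx (list_range.comp (succ.comp hm)) (Primrec₂.mk
    (prim_ok hF A (hm.comp fst) (hH.comp fst) ((Primrec.ofNat (List ℕ)).comp snd)).decide)

theorem prim_next (hF : Primrec₂ F) (A : ℕ) {m : α → ℕ} {H : α → List (List ℕ)}
    (hm : Primrec m) (hH : Primrec H) : Primrec fun a => next F A (m a) (H a) :=
  Primrec.ite (nat_le.comp (prim_cand hF A hm hH) hm)
    (list_cons.comp ((Primrec.ofNat (List ℕ)).comp (prim_cand hF A hm hH)) hH) hH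

theorem prim_path (hF : Primrec₂ F) (A : ℕ) {m i : α → ℕ}
    (hm : Primrec m) (hi : Primrec i) : Primrec fun a => path F A (m a) (i a) :=
  nat_rec' (h := fun a (p : ℕ × List (List ℕ)) => next F A (m a) p.2) hi (const [])
    (Primrec₂.mk (prim_next hF A (hm.comp fst) (snd.comp snd)))

/-- The strings of length `m` at which the final running maximum is at least `2 ^ k`. -/
def big (F : ℕ → List Bool → ℕ) (A m k : ℕ) : List (List Bool) :=
  (strs m).filter fun x => 2 ^ k * den (path F A m m) ≤ (st (F m) x (path F A m m)).1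

theorem prim_big (hF : Primrec₂ F) (A : ℕ) {m k : α → ℕ}
    (hm : Primrec m) (hk : Primrec k) : Primrec fun a => big F A (m a) (k a) :=
  (PrimrecRel.listFilter (R := fun (x : List Bool) a =>
    2 ^ k a * den (path F A (m a) (m a)) ≤ (st (F (m a)) x (path F A (m a) (m a))).1)
    (nat_le.comp (nat_mul.comp (prim_pow (const 2) (hk.comp snd))
      (prim_den (prim_path hF A (hm.comp snd) (hm.comp snd))))
      (fst.comp (prim_st hF (hm.comp snd) fst
        (prim_path hF A (hm.comp snd) (hm.comp snd)))))).comp (primrec_strs.comp hm) Primrec.id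

/-- The decompressor. -/
def decomp (F : ℕ → List Bool → ℕ) (A b : ℕ) (p : List Bool) : List Bool :=
  (big F A ((p.drop (p.idxOf false + 1)).length + 2 * p.idxOf false - b) (p.idxOf false)).getD
    ((strs (p.drop (p.idxOf false + 1)).length).idxOf (p.drop (p.idxOf false + 1))) []

theorem prim_decomp (hF : Primrec₂ F) (A b : ℕ) : Primrec (decomp F A b) := by
  have hk : Primrec fun p : List Bool => p.idxOf false := list_idxOf.comp (const false) Primrec.id
  have hq : Primrec fun p : List Bool => p.drop (p.idxOf false + 1) :=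
    list_drop.comp (succ.comp hk) Primrec.id
  exact (list_getD []).comp (prim_big hF A (nat_sub.comp (nat_add.comp (list_length.comp hq)
    (nat_mul.comp (const 2) hk)) (const b)) hk)
    ((list_idxOf.comp hq (primrec_strs.comp (list_length.comp hq))).of_eq fun p => by
      congr 1
      exact lawful_beq_subsingleton _ _)

theorem length_big_le (F : ℕ → List Bool → ℕ) (A m k : ℕ) :
    (big F A m k).length * 4 ^ k ≤ 4 * (A + 1) * 2 ^ m := by
  have h := Ex_G_path_le F A m m
  have hD : (0 : ℝ) < den (path F A m m) := by exact_mod_cast den_pos (NE_path F A m m)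
  unfold Ex at h
  rw [div_le_iff₀ (by positivity)] at h
  have h2 : ∀ l : List (List Bool), (((l.filter fun x => 2 ^ k * den (path F A m m) ≤
      (st (F m) x (path F A m m)).1).length : ℝ)) * 4 ^ k ≤
      (l.map fun x => G (F m) (path F A m m) x ^ 2).sum := by
    intro l
    induction l with
    | nil => simp
    | cons x l ih =>
      rw [List.filter_cons, List.map_cons, List.sum_cons]
      split_ifs with hx
      · rw [List.length_cons]
        push_cast
        have h3 : (2 : ℝ) ^ k ≤ G (F m) (path F A m m) x := by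
          unfold G
          rw [le_div_iff₀ hD]
          exact_mod_cast of_decide_eq_true hx
        have h4 : (4 : ℝ) ^ k = (2 ^ k) ^ 2 := by rw [← pow_mul, mul_comm, pow_mul]; norm_num
        have h5 : ((2 : ℝ) ^ k) ^ 2 ≤ G (F m) (path F A m m) x ^ 2 := by gcongr
        linarith
      · linarith [sq_nonneg (G (F m) (path F A m m) x)]
  have h3 := (h2 (strs m)).trans h
  exact_mod_cast h3

theorem exists_decomp (F : ℕ → List Bool → ℕ) (A b : ℕ) (hb : 4 * (A + 1) ≤ 2 ^ b)
    (x : List Bool) (k : ℕ)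
    (hx : (2 : ℝ) ^ k ≤ G (F x.length) (path F A x.length x.length) x) :
    ∃ p, decomp F A b p = x ∧ p.length + k = x.length + b + 1 := by
  set m := x.length with hm
  have hD : (0 : ℝ) < den (path F A m m) := by exact_mod_cast den_pos (NE_path F A m m)
  have hmem : x ∈ big F A m k := by
    refine List.mem_filter.2 ⟨mem_strs.2 rfl, decide_eq_true ?_⟩
    unfold G at hx
    rw [le_div_iff₀ hD] at hx
    exact_mod_cast hx
  have h1 : (big F A m k).length * 2 ^ (2 * k) ≤ 2 ^ (m + b) := by
    calc _ = (big F A m k).length * 4 ^ k := by rw [pow_mul]; norm_num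
      _ ≤ 4 * (A + 1) * 2 ^ m := length_big_le F A m k
      _ ≤ 2 ^ b * 2 ^ m := Nat.mul_le_mul_right _ hb
      _ = 2 ^ (m + b) := by rw [pow_add, mul_comm]
  have h2 : (big F A m k).idxOf x < (big F A m k).length := List.idxOf_lt_length_iff.2 hmem
  have h3 : 2 * k ≤ m + b := by
    have : 2 ^ (2 * k) ≤ 2 ^ (m + b) := le_trans (Nat.le_mul_of_pos_left _ (by omega)) h1
    exact (Nat.pow_le_pow_iff_right (by norm_num)).1 this
  obtain ⟨l, hl⟩ := Nat.exists_eq_add_of_le' h3
  have h4 : (big F A m k).length ≤ 2 ^ l := by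
    rw [hl, pow_add] at h1
    exact Nat.le_of_mul_le_mul_right h1 (by positivity)
  have h5 : (big F A m k).idxOf x < (strs l).length := by rw [length_strs]; omega
  let q := (strs l)[(big F A m k).idxOf x]
  have hq : q.length = l := mem_strs.1 (List.getElem_mem h5)
  have e1 : (List.replicate k true ++ false :: q).idxOf false = k := by
    rw [List.idxOf_append_of_notMem (by simp)]; simp
  have e2 : (List.replicate k true ++ false :: q).drop (k + 1) = q := by
    rw [List.drop_append]; simp
  refine ⟨List.replicate k true ++ false :: q, ?_, ?_⟩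
  · unfold decomp
    rw [e1, e2, hq, show l + 2 * k - b = m by omega, (nodup_strs l).idxOf_getElem _ h5,
      List.getD_eq_getElem _ _ h2, List.getElem_idxOf]
  · simp only [List.length_append, List.length_replicate, List.length_cons, hq]
    omega

end Pool.Agent.MP_8ca5b0_lc

end

-- part MP_8ca5b0_lc.Key
section

/-! The key inequality for plain complexity. -/

namespace Pool.Agent.MP_8ca5b0_lc

open Filter Encodable Nat.Partrec

variable {U : List Bool →. List Bool}

theorem plainC_le {p x : List Bool} (h : x ∈ U p) : plainC U x ≤ p.length :=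
  Nat.sInf_le ⟨p, rfl, h⟩

theorem plainC_spec {p x : List Bool} (h : x ∈ U p) : ∃ q, q.length = plainC U x ∧ x ∈ U q :=
  Nat.sInf_mem (s := {n : ℕ | ∃ p : List Bool, p.length = n ∧ x ∈ U p}) ⟨_, p, rfl, h⟩

theorem IsOptimal.exists_le (hU : IsOptimal U) {V : List Bool → List Bool} (hV : Computable V) :
    ∃ c : ℕ, ∀ p, ∃ q, V p ∈ U q ∧ q.length ≤ p.length + c := by
  obtain ⟨c, hc⟩ := hU.2 V hV
  exact ⟨c, fun p => hc p (V p) (Part.mem_some _)⟩

theorem exists_code (hU : Partrec U) :
    ∃ c : Code, ∀ p x, x ∈ U p ↔ ∃ s, Code.evaln s c (encode p) = some (encode x) := by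
  obtain ⟨c, hc⟩ := Code.exists_code.1 hU
  refine ⟨c, fun p x => ?_⟩
  have h := Code.evaln_complete (c := c) (n := encode p) (x := encode x)
  rw [hc] at h
  simp only [encodek, Part.coe_some, Part.bind_some, Part.mem_map_iff, encode_inj,
    exists_eq_right, Option.mem_def] at h
  exact h

/-- The stage-`s` upper approximation to the complexity. -/
def approxC (c : Code) (c₀ s : ℕ) (x : List Bool) : ℕ :=
  (List.range (x.length + c₀ + 1)).findIdx fun l =>
    decide (∃ p ∈ strs l, Code.evaln s c (encode p) = some (encode x))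

/-- The stage-`s` lower approximation to the exponential of the deficiency. -/
def approxF (c : Code) (c₀ s : ℕ) (x : List Bool) : ℕ :=
  2 ^ ((x.length + c₀ - approxC c c₀ s x) / 4)

open Primrec in
theorem prim_approxF (c : Code) (c₀ : ℕ) : Primrec₂ (approxF c c₀) := by
  have hl : Primrec fun a : ℕ × List Bool => a.2.length + c₀ :=
    nat_add.comp (list_length.comp snd) (const c₀)
  have h1 : Primrec fun a : ℕ × List Bool => approxC c c₀ a.1 a.2 := by
    refine list_findIdx (list_range.comp (succ.comp hl)) (Primrec₂.mk (PrimrecPred.decide ?_))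
    refine prim_exists_mem (primrec_strs.comp snd) ?_
    exact Primrec.eq.comp
      (Code.primrec_evaln.comp (pair (pair (fst.comp (fst.comp snd)) (const c))
        (Primrec.encode.comp fst)))
      (option_some.comp (Primrec.encode.comp (snd.comp (fst.comp snd))))
  exact prim_pow (const 2) (nat_div.comp (nat_sub.comp hl h1) (const 4))

section

variable {c : Code} {c₀ : ℕ}
  (hc : ∀ p x, x ∈ U p ↔ ∃ s, Code.evaln s c (encode p) = some (encode x))
  (h₀ : ∀ x : List Bool, ∃ q, x ∈ U q ∧ q.length ≤ x.length + c₀)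
include hc h₀

theorem plainC_le_approxC (s : ℕ) (x : List Bool) : plainC U x ≤ approxC c c₀ s x := by
  rcases lt_or_ge (approxC c c₀ s x) (List.range (x.length + c₀ + 1)).length with h | h
  · have := List.findIdx_getElem (w := h)
    simp only [List.getElem_range, decide_eq_true_eq] at this
    obtain ⟨p, hp, hs⟩ := this
    exact (plainC_le ((hc p x).2 ⟨s, hs⟩)).trans (le_of_eq (mem_strs.1 hp))
  · obtain ⟨q, hq, hl⟩ := h₀ x
    have := plainC_le hq
    simp only [List.length_range] at h
    omega

theorem approxC_eventually (x : List Bool) :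
    ∀ᶠ s in atTop, approxC c c₀ s x = plainC U x := by
  obtain ⟨q, hq, hl⟩ := h₀ x
  obtain ⟨p, hp, hx⟩ := plainC_spec hq
  obtain ⟨s₀, hs₀⟩ := (hc p x).1 hx
  filter_upwards [eventually_ge_atTop s₀] with s hs
  refine le_antisymm ?_ (plainC_le_approxC hc h₀ s x)
  by_contra hlt
  push Not at hlt
  have h1 := plainC_le hq
  have := List.not_of_lt_findIdx hlt
  simp only [List.getElem_range, decide_eq_false_iff_not, not_exists, not_and] at this
  exact this p (mem_strs.2 hp) (Code.evaln_mono hs hs₀)

omit hc in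
theorem Ex_sq_le (n : ℕ) :
    Ex n (fun x => ((2 ^ ((x.length + c₀ - plainC U x) / 4) : ℕ) : ℝ) ^ 2) ≤
      (4 * 2 ^ c₀ : ℕ) := by
  classical
  have hT : ∀ M : ℕ, ∑ l ∈ Finset.range (M + 1), (2 : ℝ) ^ l * (3 / 2) ^ (M - l) ≤ 4 * 2 ^ M := by
    intro M
    induction M with
    | zero => norm_num
    | succ M ih =>
      rw [Finset.sum_range_succ]
      have : ∑ l ∈ Finset.range (M + 1), (2 : ℝ) ^ l * (3 / 2) ^ (M + 1 - l) =
          3 / 2 * ∑ l ∈ Finset.range (M + 1), (2 : ℝ) ^ l * (3 / 2) ^ (M - l) := by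
        rw [Finset.mul_sum]
        refine Finset.sum_congr rfl fun l hl => ?_
        rw [show M + 1 - l = M - l + 1 by have := Finset.mem_range.1 hl; omega, pow_succ]
        ring
      rw [this, Nat.sub_self, pow_zero, pow_succ]
      linarith
  have hφ : ∀ k : ℕ, ((2 ^ (k / 4) : ℕ) : ℝ) ^ 2 ≤ (3 / 2) ^ k := by
    intro k
    calc ((2 ^ (k / 4) : ℕ) : ℝ) ^ 2 = 4 ^ (k / 4) := by
          push_cast; rw [← pow_mul, mul_comm, pow_mul]; norm_num
      _ ≤ ((3 / 2) ^ 4) ^ (k / 4) := by gcongr; norm_num
      _ = (3 / 2) ^ (4 * (k / 4)) := by rw [pow_mul]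
      _ ≤ (3 / 2) ^ k := pow_le_pow_right₀ (by norm_num) (Nat.mul_div_le k 4)
  choose q hq hl using h₀
  choose P hP hPx using fun x => plainC_spec (hq x)
  unfold Ex
  rw [div_le_iff₀ (by positivity), ← List.sum_toFinset _ (nodup_strs n)]
  have hmaps : ∀ x ∈ (strs n).toFinset, plainC U x ∈ Finset.range (n + c₀ + 1) := by
    intro x hx
    have h1 := mem_strs.1 (List.mem_toFinset.1 hx)
    have h2 := plainC_le (hq x)
    have h3 := hl x
    rw [Finset.mem_range]; omega
  rw [← Finset.sum_fiberwise_of_maps_to hmaps]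
  refine le_trans (Finset.sum_le_sum fun l _ => ?_) ((hT (n + c₀)).trans (le_of_eq ?_))
  · have hcard : ((strs n).toFinset.filter fun x => plainC U x = l).card ≤ 2 ^ l := by
      rw [← length_strs l]
      refine le_trans (Finset.card_le_card_of_injOn P ?_ ?_) (List.toFinset_card_le (strs l))
      · intro x hx
        have := (Finset.mem_filter.1 hx).2
        exact List.mem_toFinset.2 (mem_strs.2 ((hP x).trans this))
      · intro x _ y _ hxy
        exact Part.mem_unique (hPx x) (hxy ▸ hPx y)
    refine le_trans (Finset.sum_le_card_nsmul _ _ ((3 / 2 : ℝ) ^ (n + c₀ - l)) fun x hx => ?_) ?_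
    · obtain ⟨h1, h2⟩ := Finset.mem_filter.1 hx
      rw [mem_strs.1 (List.mem_toFinset.1 h1), h2]
      exact hφ _
    · rw [nsmul_eq_mul]
      gcongr
      exact_mod_cast hcard
  · push_cast; ring

end

theorem one_add_le_zpow (k e : ℕ) : (2 : ℝ) ^ k * (1 + (e - k)) ≤ 2 ^ e := by
  rcases le_total k e with h | h
  · obtain ⟨d, rfl⟩ := Nat.exists_eq_add_of_le h
    have := one_add_mul_le_pow (show (-2 : ℝ) ≤ 1 by norm_num) d
    rw [pow_add]
    push_cast
    refine mul_le_mul_of_nonneg_left ?_ (by positivity)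
    norm_num at this ⊢
    linarith
  · rcases h.eq_or_lt with rfl | h
    · simp
    · have h1 : (e : ℝ) + 1 ≤ k := by exact_mod_cast h
      have h2 : (0 : ℝ) < 2 ^ k := by positivity
      have h3 : (0 : ℝ) < 2 ^ e := by positivity
      nlinarith

theorem two_pow_le_avg (L : List ℕ) (hL : L ≠ []) (e : ℕ → ℕ) :
    (2 : ℝ) ^ ((L.map e).sum / L.length) ≤ avg L fun n => ((2 ^ e n : ℕ) : ℝ) := by
  set k := (L.map e).sum / L.length with hk
  have h1 : (0 : ℝ) < L.length := by exact_mod_cast List.length_pos_iff.2 hL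
  have h2 : ∀ l : List ℕ, (2 : ℝ) ^ k * (l.length + (((l.map e).sum : ℕ) - l.length * k)) ≤
      (l.map fun n => ((2 ^ e n : ℕ) : ℝ)).sum := by
    intro l
    induction l with
    | nil => simp
    | cons a l ih =>
      have := one_add_le_zpow k (e a)
      simp only [List.length_cons, List.map_cons, List.sum_cons]
      push_cast at ih ⊢
      nlinarith
  have h3 : (L.length : ℝ) * k ≤ ((L.map e).sum : ℕ) := by
    exact_mod_cast Nat.mul_div_le (L.map e).sum L.length
  unfold avg
  rw [le_div_iff₀ h1]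
  refine le_trans ?_ (h2 L)
  have h4 : (0 : ℝ) < 2 ^ k := by positivity
  nlinarith

/-- The key inequality: the deficiency of every long string dominates an average of the
deficiencies of its prefixes at arbitrarily late, fixed lengths. -/
theorem key (hU : IsOptimal U) : ∃ c : ℝ, ∀ j : ℕ, ∃ L : List ℕ, L ≠ [] ∧ (∀ n ∈ L, j ≤ n) ∧
    ∀ᶠ m in atTop, ∀ x : List Bool, x.length = m →
      (L.map fun n : ℕ => (n : ℝ) - plainC U (x.take n)).sum ≤
        L.length * (4 * ((m : ℝ) - plainC U x) + c) := by
  obtain ⟨c₀, h₀⟩ := hU.exists_le Computable.id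
  obtain ⟨c, hc⟩ := exists_code hU.1
  let f : List Bool → ℕ := fun x => 2 ^ ((x.length + c₀ - plainC U x) / 4)
  have hF : ∀ x, ∀ᶠ s in atTop, approxF c c₀ s x = f x := fun x => by
    filter_upwards [approxC_eventually hc h₀ x] with s hs
    simp only [approxF, hs, f]
  have hle : ∀ s x, approxF c c₀ s x ≤ f x := fun s x => by
    have := plainC_le_approxC hc h₀ s x
    exact Nat.pow_le_pow_right (by norm_num) (Nat.div_le_div_right (by omega))
  have hA := Ex_sq_le h₀
  obtain ⟨c₁, h₁⟩ := hU.exists_le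
    (prim_decomp (prim_approxF c c₀) (4 * 2 ^ c₀) (c₀ + 5)).to_comp
  refine ⟨4 * (c₀ + 6 + c₁) + 8, fun j => ?_⟩
  obtain ⟨L, hL, hj, h⟩ := exists_avg_le hF hle hA j
  refine ⟨L, hL, hj, ?_⟩
  filter_upwards [h, eventually_ge_atTop L.sum] with m hm hLm x hx
  subst hx
  let e : ℕ → ℕ := fun n => ((x.take n).length + c₀ - plainC U (x.take n)) / 4
  have h2 := (two_pow_le_avg L hL e).trans (hm x)
  obtain ⟨p, hp, hpl⟩ := exists_decomp (approxF c c₀) (4 * 2 ^ c₀) (c₀ + 5) (by
    have : 0 < 2 ^ c₀ := by positivity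
    rw [pow_add]; omega) x _ h2
  obtain ⟨q, hq, hql⟩ := h₁ p
  rw [hp] at hq
  have h3 := plainC_le hq
  set k := (L.map e).sum / L.length with hk
  have hLpos : 0 < L.length := List.length_pos_iff.2 hL
  have h4 : (L.map e).sum ≤ L.length * (k + 1) := (Nat.lt_mul_div_succ _ hLpos).le
  have h5 : (k : ℝ) ≤ x.length - plainC U x + (c₀ + 6 + c₁) := by
    have : k + plainC U x ≤ x.length + (c₀ + 6 + c₁) := by omega
    have : (k : ℝ) + plainC U x ≤ x.length + (c₀ + 6 + c₁) := by exact_mod_cast this
    linarith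
  have h6 : (L.map fun n : ℕ => (n : ℝ) - plainC U (x.take n)).sum ≤
      (L.map fun n => 4 * (e n : ℝ) + 4).sum := by
    refine List.sum_le_sum fun n hn => ?_
    have h7 : (x.take n).length = n := by
      rw [List.length_take, min_eq_left ((List.le_sum_of_mem hn).trans hLm)]
    have h8 : n ≤ 4 * e n + 4 + plainC U (x.take n) := by
      simp only [e, h7]; omega
    have h9 : (n : ℝ) ≤ 4 * e n + 4 + plainC U (x.take n) := by exact_mod_cast h8
    linarith
  have h10 : (L.map fun n => 4 * (e n : ℝ) + 4).sum = 4 * ((L.map e).sum : ℕ) + 4 * L.length := by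
    rw [List.sum_map_add, List.sum_map_mul_left, Nat.cast_list_sum, List.map_map]
    simp [Function.comp_def, mul_comm]
  have h11 : (((L.map e).sum : ℕ) : ℝ) ≤ L.length * (k + 1) := by exact_mod_cast h4
  have h12 : (0 : ℝ) ≤ L.length := Nat.cast_nonneg _
  have h13 := mul_le_mul_of_nonneg_left h5 h12
  nlinarith

end Pool.Agent.MP_8ca5b0_lc

end

-- part MP_8ca5b0_lc.Main
section

/-! From the key inequality to measures. -/

namespace Pool.Agent.MP_8ca5b0_lc

open Filter MeasureTheory

/-- The initial segment of length `m`. -/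
def pre (m : ℕ) (X : ℕ → Bool) : List Bool := List.ofFn fun i : Fin m => X i

theorem length_pre (m : ℕ) (X : ℕ → Bool) : (pre m X).length = m := by simp [pre]

theorem take_pre {n m : ℕ} (h : n ≤ m) (X : ℕ → Bool) : (pre m X).take n = pre n X := by
  apply List.ext_getElem
  · simp [pre, h]
  · intro i h1 h2
    simp [pre]

theorem measurable_res (m : ℕ) : Measurable fun (X : ℕ → Bool) (i : Fin m) => X i :=
  measurable_pi_lambda _ fun i => measurable_pi_apply _

theorem integrable_pre (μ : Measure (ℕ → Bool)) [IsFiniteMeasure μ] (m : ℕ)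
    (h : List Bool → ℝ) : Integrable (fun X => h (pre m X)) μ :=
  (Integrable.of_finite (μ := μ.map fun (X : ℕ → Bool) (i : Fin m) => X i)
    (f := fun y : Fin m → Bool => h (List.ofFn y))).comp_measurable (measurable_res m)

theorem integral_pre (μ : Measure (ℕ → Bool)) [IsFiniteMeasure μ] (m : ℕ) (h : List Bool → ℝ) :
    ∫ X, h (pre m X) ∂μ =
      ∑ x : Fin m → Bool, μ.real {X : ℕ → Bool | ∀ i : Fin m, X i = x i} * h (List.ofFn x) := by
  have e := integral_map (μ := μ) (measurable_res m).aemeasurable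
    (f := fun y : Fin m → Bool => h (List.ofFn y)) (measurable_of_finite _).aestronglyMeasurable
  rw [integral_fintype Integrable.of_finite] at e
  refine e.symm.trans (Finset.sum_congr rfl fun x _ => ?_)
  rw [smul_eq_mul, map_measureReal_apply (measurable_res m) (measurableSet_singleton x)]
  congr 2
  ext X
  simp [funext_iff]

variable {U : List Bool →. List Bool}

theorem sub_avgC (μ : Measure (ℕ → Bool)) [IsProbabilityMeasure μ] (n : ℕ) :
    (n : ℝ) - avgC U μ n = ∫ X, ((n : ℝ) - plainC U (pre n X)) ∂μ := by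
  rw [integral_sub (integrable_const _) (integrable_pre μ n fun x => (plainC U x : ℝ)),
    integral_pre μ n fun x => (plainC U x : ℝ)]
  simp [avgC]

theorem sum_le_of_key (μ : Measure (ℕ → Bool)) [IsProbabilityMeasure μ] {L : List ℕ} {c : ℝ}
    {m : ℕ} (hm : ∀ n ∈ L, n ≤ m) (h : ∀ x : List Bool, x.length = m →
      (L.map fun n : ℕ => (n : ℝ) - plainC U (x.take n)).sum ≤
        L.length * (4 * ((m : ℝ) - plainC U x) + c)) :
    (L.map fun n : ℕ => (n : ℝ) - avgC U μ n).sum ≤
      L.length * (4 * ((m : ℝ) - avgC U μ m) + c) := by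
  have h1 : ∀ l : List ℕ, (∀ n ∈ l, n ≤ m) → (l.map fun n : ℕ => (n : ℝ) - avgC U μ n).sum =
      ∫ X, (l.map fun n : ℕ => (n : ℝ) - plainC U ((pre m X).take n)).sum ∂μ := by
    intro l hl
    induction l with
    | nil => simp
    | cons a l ih =>
      simp only [List.map_cons, List.sum_cons]
      rw [integral_add (integrable_pre μ m fun x => (a : ℝ) - plainC U (x.take a))
        (integrable_pre μ m fun x => (l.map fun n : ℕ => (n : ℝ) - plainC U (x.take n)).sum),
        ih fun n hn => hl n (by simp [hn]), sub_avgC]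
      simp only [take_pre (hl a (by simp))]
  rw [h1 L hm, sub_avgC]
  refine le_trans (integral_mono
    (integrable_pre μ m fun x => (L.map fun n : ℕ => (n : ℝ) - plainC U (x.take n)).sum)
    (integrable_pre μ m fun x => L.length * (4 * ((m : ℝ) - plainC U x) + c))
    fun X => h _ (length_pre m X)) (le_of_eq ?_)
  rw [integral_const_mul, integral_add
    (integrable_pre μ m fun x => 4 * ((m : ℝ) - plainC U x)) (integrable_const _),
    integral_const_mul]
  simp

theorem avgC_convex (μ ν : Measure (ℕ → Bool)) [IsProbabilityMeasure μ] [IsProbabilityMeasure ν]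
    {t : ℝ} (h0 : 0 ≤ t) (h1 : t ≤ 1) (n : ℕ) :
    avgC U (ENNReal.ofReal t • μ + ENNReal.ofReal (1 - t) • ν) n =
      t * avgC U μ n + (1 - t) * avgC U ν n := by
  unfold avgC
  rw [Finset.mul_sum, Finset.mul_sum, ← Finset.sum_add_distrib]
  refine Finset.sum_congr rfl fun x _ => ?_
  have : IsFiniteMeasure (ENNReal.ofReal t • μ) := μ.smul_finite ENNReal.ofReal_ne_top
  have : IsFiniteMeasure (ENNReal.ofReal (1 - t) • ν) := ν.smul_finite ENNReal.ofReal_ne_top
  rw [measureReal_add_apply, measureReal_ennreal_smul_apply, measureReal_ennreal_smul_apply,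
    ENNReal.toReal_ofReal h0, ENNReal.toReal_ofReal (by linarith)]
  ring

theorem convex_random (hU : IsOptimal U) (μ ν : Measure (ℕ → Bool)) [IsProbabilityMeasure μ]
    [IsProbabilityMeasure ν] {t : ℝ} (h0 : 0 ≤ t) (h1 : t ≤ 1) (hμ : KolmogorovRandom U μ)
    (hν : KolmogorovRandom U ν) :
    KolmogorovRandom U (ENNReal.ofReal t • μ + ENNReal.ofReal (1 - t) • ν) := by
  obtain ⟨c, hc⟩ := key hU
  obtain ⟨d₁, hd₁⟩ := hμ
  obtain ⟨d₂, hd₂⟩ := hν
  refine ⟨4 * max d₁ d₂ + c, frequently_atTop.2 fun j => ?_⟩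
  obtain ⟨L, hL, hj, h⟩ := hc j
  have hb : ∀ (ρ : Measure (ℕ → Bool)) [IsProbabilityMeasure ρ] (d : ℝ), d ≤ max d₁ d₂ →
      (∃ᶠ n : ℕ in atTop, (n : ℝ) - d ≤ avgC U ρ n) →
      (L.map fun n : ℕ => (n : ℝ) - avgC U ρ n).sum ≤ L.length * (4 * max d₁ d₂ + c) := by
    intro ρ _ d hd hρ
    obtain ⟨m, e1, e2, e3⟩ := (hρ.and_eventually (h.and (eventually_ge_atTop L.sum))).exists
    refine (sum_le_of_key ρ (fun n hn => (List.le_sum_of_mem hn).trans e3) e2).trans ?_
    refine mul_le_mul_of_nonneg_left ?_ (Nat.cast_nonneg _)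
    linarith
  have e1 := hb μ d₁ (le_max_left _ _) hd₁
  have e2 := hb ν d₂ (le_max_right _ _) hd₂
  by_contra hcon
  push Not at hcon
  have e3 : (L.map fun _ : ℕ => 4 * max d₁ d₂ + c).sum <
      (L.map fun n : ℕ => t * ((n : ℝ) - avgC U μ n) + (1 - t) * ((n : ℝ) - avgC U ν n)).sum := by
    refine List.sum_lt_sum_of_ne_nil hL _ _ fun n hn => ?_
    have := hcon n (hj n hn)
    rw [avgC_convex μ ν h0 h1] at this
    linarith
  simp only [List.map_const', List.sum_replicate, nsmul_eq_mul] at e3
  rw [List.sum_map_add, List.sum_map_mul_left, List.sum_map_mul_left] at e3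
  have e4 := mul_le_mul_of_nonneg_left e1 h0
  have e5 := mul_le_mul_of_nonneg_left e2 (sub_nonneg.2 h1)
  linarith

end Pool.Agent.MP_8ca5b0_lc

end

-- part MP_8ca5b0_lc.Exists
section

/-! Sanity check: optimal machines exist. -/

namespace Pool.Agent.MP_8ca5b0_lc

open Encodable Nat.Partrec

theorem exists_isOptimal : ∃ U, IsOptimal U := by
  let U : List Bool →. List Bool := fun p =>
    (Code.eval (Denumerable.ofNat Code (p.idxOf false)) (encode (p.drop (p.idxOf false + 1)))).bind
      fun n => (decode (α := List Bool) n : Part (List Bool))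
  have hk : Primrec fun p : List Bool => p.idxOf false :=
    Primrec.list_idxOf.comp (Primrec.const false) Primrec.id
  have hq : Primrec fun p : List Bool => p.drop (p.idxOf false + 1) :=
    Primrec.list_drop.comp (Primrec.succ.comp hk) Primrec.id
  refine ⟨U, ?_, fun V hV => ?_⟩
  · exact (Code.eval_part.comp ((Primrec.ofNat Code).comp hk).to_comp
      (Primrec.encode.comp hq).to_comp).bind
      (Computable.ofOption (Computable.decode.comp Computable.snd)).to₂
  · obtain ⟨c, hc⟩ := Code.exists_code.1 hV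
    refine ⟨encode c + 1, fun p x hx => ⟨List.replicate (encode c) true ++ false :: p, ?_, ?_⟩⟩
    · have e1 : (List.replicate (encode c) true ++ false :: p).idxOf false = encode c := by
        rw [List.idxOf_append_of_notMem (by simp)]; simp
      have e2 : (List.replicate (encode c) true ++ false :: p).drop (encode c + 1) = p := by
        rw [List.drop_append]; simp
      simp only [U, e1, e2, Denumerable.ofNat_encode, hc, Part.mem_bind_iff]
      refine ⟨encode x, ⟨p, by simp, Part.mem_map _ hx⟩, by simp⟩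
    · simp; omega

end Pool.Agent.MP_8ca5b0_lc

end
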